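import Pool.Agent.TH350.J294
import Pool.Agent.TH350.J289
import Pool.Agent.TH480.J295
import Pool.Agent.W506.H2
import Mathlib

set_option autoImplicit false

open CategoryTheory TensorProduct

namespace Pool.Agent.Y176.NC

open Pool.Agent.TH215.TM Pool.Agent.W506.Hilb

section restrict

theorem proj_finsupp (P : Type) [CommRing P] (A : Type) [AddCommGroup A] [Module P A]
    [Module.Projective P A] (X : Type) : Module.Projective P (X →₀ A) := by
  classical
  exact Module.Projective.of_equiv (finsuppLequivDFinsupp (ι := X) (M := A) P).symm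

variable (P : Type) [CommRing P] (A : Type) [Ring A] [Algebra P A] [Module.Projective P A]

/-- Restriction of scalars to `P` does not increase the projective dimension if `A` is
projective over `P`. -/
theorem pd_restrict (n : ℕ) : ∀ (X : Type) [AddCommGroup X] [Module A X] [Module P X]
    [IsScalarTower P A X], HasProjectiveDimensionLT (ModuleCat.of A X) (n + 1) →
    PdLT P X (n + 1) := by
  induction n with
  | zero =>
    intro X _ _ _ _ h
    have h1 : Projective (ModuleCat.of A X) :=
      projective_iff_hasProjectiveDimensionLT_one.2 h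
    have h2 : Module.Projective A X := (IsProjective.iff_projective X).2 h1
    obtain ⟨s, hs⟩ := Module.projective_def'.1 h2
    have h3 : Module.Projective P (X →₀ A) := proj_finsupp P A X
    have h4 : Module.Projective P X :=
      Module.Projective.of_split (s.restrictScalars P)
        ((Finsupp.linearCombination A (id : X → X)).restrictScalars P) (by
          ext x
          exact LinearMap.congr_fun hs x)
    exact pdLT_one_of_projective h4
  | succ n ih =>
    intro X _ _ _ _ h
    let π : (X →₀ A) →ₗ[A] X := Finsupp.linearCombination A id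
    have hπ : Function.Surjective π := Finsupp.linearCombination_id_surjective A X
    let F := ModuleCat.of A (X →₀ A)
    let K := ModuleCat.of A (LinearMap.ker π)
    let i : K ⟶ F := ModuleCat.ofHom (LinearMap.ker π).subtype
    let p : F ⟶ ModuleCat.of A X := ModuleCat.ofHom π
    let S : ShortComplex (ModuleCat.{0} A) := ShortComplex.mk i p (by
        ext x
        exact x.2)
    have hS : S.ShortExact := by
      refine ShortComplex.ShortExact.mk' ?_ ?_ ?_
      · rw [ShortComplex.moduleCat_exact_iff]
        intro x hx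
        exact ⟨⟨x, hx⟩, rfl⟩
      · exact (ModuleCat.mono_iff_injective _).2 Subtype.val_injective
      · exact (ModuleCat.epi_iff_surjective _).2 hπ
    have hF : Projective (ModuleCat.of A (X →₀ A)) :=
      (IsProjective.iff_projective (X →₀ A)).1 inferInstance
    have hK : HasProjectiveDimensionLT (ModuleCat.of A (LinearMap.ker π)) (n + 1) :=
      hS.hasProjectiveDimensionLT_X₁ (n + 1)
        (hasProjectiveDimensionLT_of_ge (ModuleCat.of A (X →₀ A)) 1 (n + 1) (by omega)) h
    have h1 := ih (LinearMap.ker π) hK
    have h3 : Module.Projective P (X →₀ A) := proj_finsupp P A X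
    exact pdLT_right ((LinearMap.ker π).subtype.restrictScalars P) (π.restrictScalars P)
        (Subtype.val_injective) hπ
        (LinearMap.exact_subtype_ker_map π) h1
        (pdLT_mono (by omega) (pdLT_one_of_projective h3))

/-- If all `A`-modules have projective dimension at most `d` and `P` is a direct summand of
`A`, then the same holds for all `P`-modules. -/
theorem gl_descend (i : P →ₗ[P] A) (r : A →ₗ[P] P) (hir : r ∘ₗ i = LinearMap.id) (d : ℕ)
    (h : ∀ X : ModuleCat.{0} A, HasProjectiveDimensionLE X d) (N : Type) [AddCommGroup N]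
    [Module P N] : PdLT P N (d + 1) := by
  have h1 : PdLT P (A ⊗[P] N) (d + 1) := pd_restrict P A d (A ⊗[P] N) (h _)
  let i' : N →ₗ[P] (A ⊗[P] N) := (i.rTensor N) ∘ₗ (TensorProduct.lid P N).symm.toLinearMap
  let r' : (A ⊗[P] N) →ₗ[P] N := (TensorProduct.lid P N).toLinearMap ∘ₗ (r.rTensor N)
  have hir' : r' ∘ₗ i' = LinearMap.id := by
    ext x
    have : r (i 1) = 1 := LinearMap.congr_fun hir 1
    simp [i', r', this]
  let ret : Retract (ModuleCat.of P N) (ModuleCat.of P (A ⊗[P] N)) :=
    { i := ModuleCat.ofHom i'
      r := ModuleCat.ofHom r'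
      retract := by
        rw [← ModuleCat.ofHom_comp, hir']
        rfl }
  exact ret.hasProjectiveDimensionLT (d + 1)

end restrict

section origin

open Pool.Agent.TH350.J294

/-- evaluation at the origin -/
noncomputable def ev0 : RR →+* ℂ :=
  (TrivSqZeroExt.fstHom ℂ ℂ ℂ : DualNumber ℂ →ₐ[ℂ] ℂ).toRingHom.comp θ

/-- the maximal ideal of the origin -/
noncomputable def p0 : Ideal RR := RingHom.ker ev0

instance : p0.IsPrime := RingHom.ker_isPrime ev0

lemma isUnit_θ {s : RR} (hs : s ∉ p0) : IsUnit (θ s) := by
  rw [TrivSqZeroExt.isUnit_iff_isUnit_fst, isUnit_iff_ne_zero]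
  intro h
  exact hs h

/-- the extension of `θ` to the local ring of the origin -/
noncomputable def θl : Localization.AtPrime p0 →+* DualNumber ℂ :=
  IsLocalization.lift (M := p0.primeCompl) (g := θ) fun s => isUnit_θ s.2

lemma θl_apply (r : RR) : θl (algebraMap RR (Localization.AtPrime p0) r) = θ r :=
  IsLocalization.lift_eq _ r

/-- localization of the exactness of matrices -/
theorem ker_eq_range_loc {R : Type} [CommRing R] [IsDomain R] (T : Submonoid R)
    (hT : T ≤ nonZeroDivisors R) (P' : Type) [CommRing P'] [Algebra R P'] [IsLocalization T P']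
    {n : Type} [Fintype n] [DecidableEq n] (P Q : Matrix n n R)
    (h : LinearMap.ker P.mulVecLin = LinearMap.range Q.mulVecLin) :
    LinearMap.ker (P.map (algebraMap R P')).mulVecLin =
      LinearMap.range (Q.map (algebraMap R P')).mulVecLin := by
  have hinj : Function.Injective (algebraMap R P') := IsLocalization.injective P' hT
  have hmv : ∀ (A : Matrix n n R) (v : n → R), (A.map (algebraMap R P')).mulVec
      (algebraMap R P' ∘ v) = algebraMap R P' ∘ (A.mulVec v) := by
    intro A v
    funext i
    exact (RingHom.map_mulVec (algebraMap R P') A v i).symm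
  apply le_antisymm
  · intro v hv
    rw [LinearMap.mem_ker, Matrix.mulVecLin_apply] at hv
    obtain ⟨b, hb⟩ := IsLocalization.exist_integer_multiples_of_finite T v
    choose v' hv' using hb
    have e1 : (algebraMap R P' (b : R)) • v = algebraMap R P' ∘ v' := by
      funext i
      have := hv' i
      rw [Function.comp_apply, this, Pi.smul_apply, smul_eq_mul, Algebra.smul_def]
    have e2 : P.mulVec v' = 0 := by
      funext i
      apply hinj
      have h1 := hmv P v'
      rw [← e1, Matrix.mulVec_smul, hv, smul_zero] at h1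
      have := congrFun h1 i
      rw [Function.comp_apply] at this
      rw [← this, Pi.zero_apply, Pi.zero_apply, map_zero]
    have e3 : v' ∈ LinearMap.ker P.mulVecLin := e2
    rw [h] at e3
    obtain ⟨u, hu⟩ := e3
    rw [Matrix.mulVecLin_apply] at hu
    obtain ⟨c, hc⟩ : IsUnit (algebraMap R P' (b : R)) := IsLocalization.map_units P' b
    refine ⟨(↑c⁻¹ : P') • (algebraMap R P' ∘ u), ?_⟩
    rw [Matrix.mulVecLin_apply, Matrix.mulVec_smul, hmv, hu, ← e1, ← hc, smul_smul,
      Units.inv_mul, one_smul]
  · rintro _ ⟨u, rfl⟩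
    obtain ⟨b, hb⟩ := IsLocalization.exist_integer_multiples_of_finite T u
    choose u' hu' using hb
    have e1 : (algebraMap R P' (b : R)) • u = algebraMap R P' ∘ u' := by
      funext i
      have := hu' i
      rw [Function.comp_apply, this, Pi.smul_apply, smul_eq_mul, Algebra.smul_def]
    have e3 : Q.mulVec u' ∈ LinearMap.ker P.mulVecLin := by
      rw [h]; exact ⟨u', rfl⟩
    rw [LinearMap.mem_ker, Matrix.mulVecLin_apply] at e3
    have e4 : (algebraMap R P' (b : R)) • ((P.map (algebraMap R P')).mulVec
        ((Q.map (algebraMap R P')).mulVec u)) = 0 := by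
      rw [← Matrix.mulVec_smul, ← Matrix.mulVec_smul, e1, hmv, hmv, e3]
      funext i
      simp
    obtain ⟨c, hc⟩ : IsUnit (algebraMap R P' (b : R)) := IsLocalization.map_units P' b
    rw [LinearMap.mem_ker, Matrix.mulVecLin_apply, Matrix.mulVecLin_apply]
    have e5 := congrArg (fun y => (↑c⁻¹ : P') • y) e4
    simp only [← hc, smul_smul, Units.inv_mul, one_smul, smul_zero] at e5
    exact e5

/-- the local ring of the origin has infinite global dimension -/
theorem unbounded_loc : ∃ N : ModuleCat.{0} (Localization.AtPrime p0),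
    Module.Finite (Localization.AtPrime p0) N ∧
    ∀ n : ℕ, ∃ j, n ≤ j ∧ Nontrivial (Abelian.Ext N N j) := by
  have hdom := Pool.Agent.TH480.J295.isDomain_RR
  have hff : ff ≠ 0 := (Polynomial.monic_X_pow_add_C g3 (by norm_num)).ne_zero
  obtain ⟨t, ht⟩ : ∃ t : Polynomial S3, t = Polynomial.X := ⟨_, rfl⟩
  obtain ⟨a, ha⟩ : ∃ a : Polynomial S3, a = Polynomial.C (MvPolynomial.X 0 + MvPolynomial.X 1) :=
    ⟨_, rfl⟩
  obtain ⟨b, hb⟩ : ∃ b : Polynomial S3, b = Polynomial.C (MvPolynomial.X 0 ^ 2 -
    MvPolynomial.X 0 * MvPolynomial.X 1 + MvPolynomial.X 1 ^ 2) := ⟨_, rfl⟩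
  obtain ⟨z, hz⟩ : ∃ z : Polynomial S3, z = Polynomial.C (MvPolynomial.X 2) := ⟨_, rfl⟩
  have hff' : ff = t ^ 4 + a * b + z ^ 3 := by rw [ff_eq, ht, ha, hb, hz]
  have hPQ : P4 t a b z * Q4 t a b z = ff • 1 := by rw [P4_mul_Q4, hff']
  have hQP : Q4 t a b z * P4 t a b z = ff • 1 := by rw [Q4_mul_P4, hff']
  have e1 : θ (AdjoinRoot.mk ff t) = DualNumber.eps := by
    rw [ht, AdjoinRoot.mk_X]
    exact AdjoinRoot.lift_root _
  have e2 : θ (AdjoinRoot.mk ff a) = 0 := by
    rw [ha, AdjoinRoot.mk_C]
    exact (AdjoinRoot.lift_of _).trans (by simp)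
  have e3 : θ (AdjoinRoot.mk ff b) = 0 := by
    rw [hb, AdjoinRoot.mk_C]
    exact (AdjoinRoot.lift_of _).trans (by simp)
  have e4 : θ (AdjoinRoot.mk ff z) = 0 := by
    rw [hz, AdjoinRoot.mk_C]
    exact (AdjoinRoot.lift_of _).trans (by simp)
  have k1 := ker_eq_range ff hff (AdjoinRoot.mk ff) AdjoinRoot.mk_surjective
    (fun a => AdjoinRoot.mk_eq_zero) _ _ hPQ hQP
  have k2 := ker_eq_range ff hff (AdjoinRoot.mk ff) AdjoinRoot.mk_surjective
    (fun a => AdjoinRoot.mk_eq_zero) _ _ hQP hPQ
  have hT : p0.primeCompl ≤ nonZeroDivisors RR := p0.primeCompl_le_nonZeroDivisors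
  have l1 := ker_eq_range_loc p0.primeCompl hT (Localization.AtPrime p0) _ _ k1
  have l2 := ker_eq_range_loc p0.primeCompl hT (Localization.AtPrime p0) _ _ k2
  rw [Matrix.map_map, Matrix.map_map] at l1 l2
  refine unbounded_of_periodic (Fin 4 → Localization.AtPrime p0) _ _ l1 l2
    fun ⟨γ, hγ⟩ => ?_
  exact not_regular ((algebraMap RR (Localization.AtPrime p0)).comp (AdjoinRoot.mk ff)) θl
    t a b z ((θl_apply _).trans e1) ((θl_apply _).trans e2) ((θl_apply _).trans e3)
    ((θl_apply _).trans e4) γ hγ

end origin

/-- For a nonzero finitely generated projective module `M` the localization of `End_R(M)` at the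
origin has infinite global dimension. -/
theorem not_gl (M : Type) [AddCommGroup M] [Module RR M] [Module.Finite RR M]
    [Module.Projective RR M] [Nontrivial M] (d : ℕ) :
    ¬ ∀ X : ModuleCat.{0} (Localization.AtPrime p0 ⊗[RR] Module.End RR M),
      HasProjectiveDimensionLE X d := by
  intro h
  have hdom := Pool.Agent.TH480.J295.isDomain_RR
  have hfl : Module.Flat RR (Module.End RR M) := Pool.Agent.TH350.J289.flat_end M
  have hfin : Module.Finite RR (Module.End RR M) := inferInstance
  let P := Localization.AtPrime p0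
  let A := P ⊗[RR] Module.End RR M
  have hA1 : Module.Finite P A := inferInstance
  have hA2 : Module.Flat P A := inferInstance
  have hA3 : Module.Free P A := Module.free_of_flat_of_isLocalRing
  have hnt : Nontrivial A := by
    by_contra hn
    rw [not_nontrivial_iff_subsingleton] at hn
    have hl : IsLocalizedModule p0.primeCompl (TensorProduct.mk RR P (Module.End RR M) 1) :=
      (isLocalizedModule_iff_isBaseChange p0.primeCompl P _).2 (TensorProduct.isBaseChange _ _ _)
    have h1 : TensorProduct.mk RR P (Module.End RR M) 1 1 = 0 := Subsingleton.elim _ _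
    obtain ⟨c, hc⟩ := (IsLocalizedModule.eq_zero_iff p0.primeCompl
      (TensorProduct.mk RR P (Module.End RR M) 1)).1 h1
    obtain ⟨v, hv⟩ := exists_ne (0 : M)
    have h2 := LinearMap.congr_fun hc v
    have h3 : (c : RR) • v = 0 := h2
    have hfM : Module.Flat RR M := inferInstance
    have hc0 : (c : RR) ≠ 0 := fun h0 => c.2 (by rw [h0]; exact p0.zero_mem)
    have htf : Module.IsTorsionFree RR M := inferInstance
    exact hv ((smul_eq_zero.1 h3).resolve_left hc0)
  let b := Module.Free.chooseBasis P A
  have hne : Nonempty (Module.Free.ChooseBasisIndex P A) := by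
    by_contra hn
    rw [not_nonempty_iff] at hn
    have : Subsingleton A := b.repr.toEquiv.subsingleton
    exact not_subsingleton A this
  obtain ⟨l⟩ := hne
  have hd := gl_descend P A (LinearMap.toSpanSingleton P A (b l)) (b.coord l) (by
    ext
    simp) d h
  obtain ⟨N, -, hN⟩ := unbounded_loc
  obtain ⟨j, hj, hj'⟩ := hN (d + 1)
  have hNd : HasProjectiveDimensionLT N (d + 1) := hd N
  exact not_subsingleton _ (HasProjectiveDimensionLT.subsingleton N (d + 1) j hj N)

end Pool.Agent.Y176.NC
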