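import Pool.Agent.Y176.NC.Rig
import Pool.Agent.TH480.J295
import Mathlib

set_option autoImplicit false

open CategoryTheory

namespace Pool.Agent.Y176.NC

open Pool.Agent.TH215.TM Pool.Agent.W506.Hilb

/-- Let `0 → N → R^n → M → 0` be exact, `N` finitely generated projective and `M` torsion-free and
nonzero over a domain `R`. If every map `N → M` extends to `R^n`, then `M` is projective. -/
theorem projective_of_extend {R : Type} [CommRing R] [IsDomain R] [IsNoetherianRing R]
    (M N : Type) [AddCommGroup M] [Module R M] [AddCommGroup N] [Module R N] [Module.Finite R M]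
    [Module.Finite R N] [Module.Projective R N] [Nontrivial M]
    (htf : ∀ (r : R) (m : M), r • m = 0 → r = 0 ∨ m = 0) (n : ℕ) (j : N →ₗ[R] (Fin n → R))
    (π : (Fin n → R) →ₗ[R] M) (hj : Function.Injective j)
    (hπ : Function.Surjective π) (hex : Function.Exact j π)
    (hext : ∀ h : N →ₗ[R] M, ∃ h' : (Fin n → R) →ₗ[R] M, ∀ x, h' (j x) = h x) :
    Module.Projective R M := by
  obtain ⟨k, f, g, -, -, hfg⟩ := Module.Finite.exists_comp_eq_id_of_projective R N
  -- dual basis
  let x : Fin k → N := fun l => f (Pi.single l 1)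
  let ξ : Fin k → (N →ₗ[R] R) := fun l => (LinearMap.proj l) ∘ₗ g
  have hdual : ∀ y : N, y = ∑ l, ξ l y • x l := by
    intro y
    have h1 : y = f (g y) := (LinearMap.congr_fun hfg y).symm
    have h2 : g y = ∑ l : Fin k, (g y l) • (Pi.single l (1 : R) : Fin k → R) :=
      ((Pi.basisFun R (Fin k)).sum_repr (g y)).symm.trans (by simp)
    conv_lhs => rw [h1, h2]
    simp only [map_sum, map_smul]
    rfl
  -- the restriction map of the duals
  let T : ((Fin n → R) →ₗ[R] R) →ₗ[R] (N →ₗ[R] R) := LinearMap.lcomp R R j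
  have hT : Function.Surjective T := by
    by_contra hns
    have hne : LinearMap.range T ≠ ⊤ := fun h => hns (LinearMap.range_eq_top.1 h)
    have hfd : Module.Finite R (Module.Dual R N) := inferInstance
    have hfd' : Module.Finite R (N →ₗ[R] R) := hfd
    obtain ⟨P, hP, hTP⟩ := (eq_top_or_exists_le_coatom (LinearMap.range T)).resolve_left hne
    have hs : IsSimpleModule R ((N →ₗ[R] R) ⧸ P) := isSimpleModule_iff_isCoatom.2 hP
    obtain ⟨m, hm, ⟨e⟩⟩ := isSimpleModule_iff_quot_maximal.1 hs
    let ψ : (N →ₗ[R] R) →ₗ[R] (R ⧸ m) := e.toLinearMap ∘ₗ P.mkQ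
    have hψs : Function.Surjective ψ := e.surjective.comp P.mkQ_surjective
    have hψ0 : ∀ μ, ψ (T μ) = 0 := by
      intro μ
      have : P.mkQ (T μ) = 0 := by
        rw [Submodule.mkQ_apply, Submodule.Quotient.mk_eq_zero]
        exact hTP ⟨μ, rfl⟩
      change e (P.mkQ (T μ)) = 0
      rw [this, map_zero]
    choose c hc using fun l => Ideal.Quotient.mk_surjective (ψ (ξ l))
    let ω : N := ∑ l, c l • x l
    have hω : ∀ lam : N →ₗ[R] R, ψ lam = Ideal.Quotient.mk m (lam ω) := by
      intro lam
      have h1 : lam = ∑ l, lam (x l) • ξ l := by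
        ext y
        conv_lhs => rw [hdual y]
        simp only [map_sum, map_smul, smul_eq_mul, LinearMap.sum_apply, LinearMap.smul_apply]
        exact Finset.sum_congr rfl fun _ _ => mul_comm _ _
      conv_lhs => rw [h1]
      simp only [map_sum, map_smul, ω, smul_eq_mul, map_mul]
      refine Finset.sum_congr rfl fun l _ => ?_
      rw [hc, Algebra.smul_def, mul_comm]
      rfl
    -- `j ω ∈ m R^n`
    have hjω : ∀ l, j ω l ∈ m := by
      intro l
      have := hψ0 (LinearMap.proj l)
      rw [hω] at this
      exact Ideal.Quotient.eq_zero_iff_mem.1 this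
    obtain ⟨lam, hlam⟩ := hψs 1
    rw [hω] at hlam
    -- `M = m M`
    have hM : (⊤ : Submodule R M) ≤ m • ⊤ := by
      intro v _
      obtain ⟨H, hH⟩ := hext (LinearMap.smulRight lam v)
      have h2 := hH ω
      rw [LinearMap.smulRight_apply] at h2
      have h3 : H (j ω) ∈ (m • ⊤ : Submodule R M) := by
        have h4 : j ω = ∑ l : Fin n, (j ω l) • (Pi.single l (1 : R) : Fin n → R) :=
          ((Pi.basisFun R (Fin n)).sum_repr (j ω)).symm.trans (by simp)
        rw [h4, map_sum]
        refine Submodule.sum_mem _ fun l _ => ?_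
        rw [map_smul]
        exact Submodule.smul_mem_smul (hjω l) trivial
      rw [h2] at h3
      have h5 : (lam ω - 1) ∈ m := by
        rw [← Ideal.Quotient.eq_zero_iff_mem, map_sub, hlam, map_one, sub_self]
      have h6 : v = lam ω • v - (lam ω - 1) • v := by
        rw [sub_smul, one_smul]; abel
      rw [h6]
      exact Submodule.sub_mem _ h3 (Submodule.smul_mem_smul h5 trivial)
    obtain ⟨r, hr, hr2⟩ := Submodule.exists_sub_one_mem_and_smul_eq_zero_of_fg_of_le_smul m
      (⊤ : Submodule R M) Module.Finite.fg_top hM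
    obtain ⟨v, hv⟩ := exists_ne (0 : M)
    have hr0 : r = 0 := (htf r v (hr2 v trivial)).resolve_right hv
    apply hm.ne_top
    rw [Ideal.eq_top_iff_one]
    have := m.neg_mem hr
    rw [hr0] at this
    simpa using this
  choose μ hμ using fun l => hT (ξ l)
  let ρ : (Fin n → R) →ₗ[R] N := ∑ l, LinearMap.smulRight (μ l) (x l)
  have hρ : ∀ y, ρ (j y) = y := by
    intro y
    conv_rhs => rw [hdual y]
    simp only [ρ, LinearMap.sum_apply, LinearMap.smulRight_apply]
    refine Finset.sum_congr rfl fun l _ => ?_
    have : μ l (j y) = ξ l y := LinearMap.congr_fun (hμ l) y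
    rw [this]
  -- the section
  let s0 : (Fin n → R) →ₗ[R] (Fin n → R) := LinearMap.id - j ∘ₗ ρ
  have hs0 : ∀ y ∈ LinearMap.ker π, s0 y = 0 := by
    intro y hy
    obtain ⟨z, rfl⟩ := (hex y).1 hy
    change j z - j (ρ (j z)) = 0
    rw [hρ, sub_self]
  let s : M →ₗ[R] (Fin n → R) := ((LinearMap.ker π).liftQ s0 hs0) ∘ₗ
      (π.quotKerEquivOfSurjective hπ).symm.toLinearMap
  refine Module.Projective.of_split s π ?_
  ext m
  obtain ⟨y, rfl⟩ := hπ m
  have h5 : (π.quotKerEquivOfSurjective hπ).symm (π y) = (LinearMap.ker π).mkQ y := by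
    rw [LinearEquiv.symm_apply_eq]
    rfl
  change π (((LinearMap.ker π).liftQ s0 hs0) ((π.quotKerEquivOfSurjective hπ).symm (π y))) = π y
  rw [h5]
  have h6 : ((LinearMap.ker π).liftQ s0 hs0) ((LinearMap.ker π).mkQ y) = s0 y :=
    (LinearMap.ker π).liftQ_apply s0 y
  rw [h6]
  change π (y - j (ρ y)) = π y
  rw [map_sub, (hex _).2 ⟨ρ y, rfl⟩, sub_zero]

theorem ker_projective_RR' (M : Type) [AddCommGroup M] [Module RR M] [Module S3 M]
    [IsScalarTower S3 RR M] (N : Type) [AddCommGroup N] [Module RR N]
    [Module.Finite RR M] [Module.Finite RR N] (hr : Module.IsReflexive RR M)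
    (hK : Module.Flat S3 (Module.End RR M)) (n : ℕ) (j : N →ₗ[RR] (Fin n → RR))
    (π : (Fin n → RR) →ₗ[RR] M) (hj : Function.Injective j)
    (hπ : Function.Surjective π) (hex : Function.Exact j π) : Module.Projective RR N := by
  let _ : Module S3 N := Module.compHom N (algebraMap S3 RR)
  have _ : IsScalarTower S3 RR N := IsScalarTower.of_compHom S3 RR N
  exact ker_projective_RR M N hr hK n j π hj hπ hex

/-- Every finitely generated reflexive `R`-module `M` with maximal Cohen-Macaulay endomorphism
ring is projective. -/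
theorem projective_of_modifying (M : Type) [AddCommGroup M] [Module RR M]
    (h : IsModifying RR M) : Module.Projective RR M := by
  obtain ⟨hfin, hr, hCM⟩ := h
  rcases subsingleton_or_nontrivial M with hM | hM
  · infer_instance
  let _ : Module S3 M := Module.compHom M (algebraMap S3 RR)
  have _ : IsScalarTower S3 RR M := IsScalarTower.of_compHom S3 RR M
  have hdom := Pool.Agent.TH480.J295.isDomain_RR
  have hE : Module.Projective S3 (Module.End RR M) := projective_S3 (Module.End RR M) hCM
  have hK : Module.Flat S3 (Module.End RR M) := inferInstance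
  obtain ⟨a, b, i, ρ, hi, hex⟩ := exists_syz RR M hr
  have htf : ∀ (r : RR) (m : M), r • m = 0 → r = 0 ∨ m = 0 := by
    intro r m hrm
    by_cases h0 : r = 0
    · exact Or.inl h0
    · right
      apply hi
      rw [map_zero]
      funext l
      have := congrArg (fun v => i v l) hrm
      simp only [map_smul, Pi.smul_apply, smul_eq_mul, map_zero, Pi.zero_apply, mul_eq_zero] at this
      exact this.resolve_left h0
  obtain ⟨n, π, hπ⟩ := Module.Finite.exists_fin' RR M
  let N := LinearMap.ker π
  let j : N →ₗ[RR] (Fin n → RR) := (LinearMap.ker π).subtype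
  have hj : Function.Injective j := Subtype.val_injective
  have hex' : Function.Exact j π := LinearMap.exact_subtype_ker_map π
  have hNfin : Module.Finite RR N := inferInstance
  have hNp : Module.Projective RR N := ker_projective_RR' M N hr hK n j π hj hπ hex'
  exact projective_of_extend M N htf n j π hj hπ hex'
    (extend' M N hr hK n j π hj hπ hex')

end Pool.Agent.Y176.NC
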