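import Pool.Agent.Y176.NC.Syz
import Pool.Agent.TH350.Conn
import Mathlib

set_option autoImplicit false

open CategoryTheory

namespace Pool.Agent.Y176.NC

open Pool.Agent.TH215.TM Pool.Agent.W506.Hilb

lemma wR_pow_four : wR ^ 4 = algebraMap S3 RR (-g3) := by
  have := wR_rel
  rw [← of_g3] at this
  rw [map_neg]
  exact eq_neg_of_add_eq_zero_left this

section

variable {N N' : Type} [AddCommGroup N] [Module RR N] [Module S3 N] [IsScalarTower S3 RR N]
    [AddCommGroup N'] [Module RR N'] [Module S3 N'] [IsScalarTower S3 RR N']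

/-- the trace `∑ w^t a w^(3-t)` of an `S`-linear map is `R`-linear -/
theorem trR (a : N →ₗ[S3] N') : ∃ g : N →ₗ[RR] N', ∀ v, g v =
    ∑ t ∈ Finset.range 4, wR ^ t • a (wR ^ (3 - t) • v) := by
  let f : N →ₗ[S3] N' :=
    { toFun := fun v => ∑ t ∈ Finset.range 4, wR ^ t • a (wR ^ (3 - t) • v)
      map_add' := by
        intro x y
        simp only [smul_add, map_add, Finset.sum_add_distrib]
      map_smul' := by
        intro s x
        simp only [RingHom.id_apply, Finset.smul_sum]
        refine Finset.sum_congr rfl fun t _ => ?_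
        rw [smul_comm (wR ^ (3 - t)) s x, map_smul, smul_comm] }
  obtain ⟨g, hg⟩ := linR f (by
    intro v
    change ∑ t ∈ Finset.range 4, wR ^ t • a (wR ^ (3 - t) • wR • v) =
      wR • ∑ t ∈ Finset.range 4, wR ^ t • a (wR ^ (3 - t) • v)
    simp only [Finset.sum_range_succ, Finset.sum_range_zero, zero_add, smul_smul, smul_add,
      ← pow_succ, ← pow_succ', pow_zero, one_smul, one_mul, mul_one, Nat.sub_zero]
    have e1 : (wR ^ 4) • v = (-g3) • v := by rw [wR_pow_four, algebraMap_smul]
    have e2 : (wR ^ 4) • a v = (-g3) • a v := by rw [wR_pow_four, algebraMap_smul]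
    norm_num
    rw [e1, e2, map_smul]
    abel)
  exact ⟨g, hg⟩

end

section fac

variable (M : Type) [AddCommGroup M] [Module RR M] [Module S3 M] [IsScalarTower S3 RR M]

/-- from `p • 1 = β α` through a free `S`-module to a factorization of
`- 3 p^2 x_i^2 • 1` through a free `R`-module -/
theorem exists_factor_R (i : Fin 3) (p : S3) (k : ℕ) (α : M →ₗ[S3] (Fin k → S3))
    (β : (Fin k → S3) →ₗ[S3] M) (h : β ∘ₗ α = p • (LinearMap.id : M →ₗ[S3] M)) :
    ∃ (A : M →ₗ[RR] (Fin k → RR)) (B : (Fin k → RR) →ₗ[RR] M),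
      ∀ m, B (A m) = (p * (-(p * (3 * MvPolynomial.X i ^ 2)))) • m := by
  have h' : ∀ m, β (α m) = p • m := fun m => LinearMap.congr_fun h m
  let D : S3 → S3 := MvPolynomial.pderiv i
  let Nb : M →+ M :=
    { toFun := fun m => β (fun l => D (α m l))
      map_zero' := by
        rw [map_zero]
        have : (fun l : Fin k => D ((0 : Fin k → S3) l)) = 0 := by
          funext l; exact map_zero (MvPolynomial.pderiv i)
        rw [this, map_zero]
      map_add' := by
        intro x y
        rw [← map_add]
        congr 1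
        funext l
        rw [map_add]
        exact map_add (MvPolynomial.pderiv i) _ _ }
  have hN : ∀ (s : S3) (x : M), Nb (s • x) = (p * D s) • x + s • Nb x := by
    intro s x
    have e1 : (fun l => D (α (s • x) l)) = D s • α x + s • (fun l => D (α x l)) := by
      funext l
      rw [map_smul]
      change (MvPolynomial.pderiv i) (s * α x l) = D s * α x l + s * D (α x l)
      rw [Derivation.leibniz, smul_eq_mul, smul_eq_mul]
      change s * D (α x l) + α x l * D s = _
      ring
    change β (fun l => D (α (s • x) l)) = _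
    rw [e1, map_add, map_smul, map_smul, h', smul_smul, mul_comm p]
    rfl
  let c := Pool.Agent.TH350.Conn.comm (fun s => p * D s) Nb hN (phiN M)
  have hc := Pool.Agent.TH350.Conn.comm_trace (fun s => p * D s) Nb hN (phiN M) 4 g3
    (phiN_pow_four M)
  have hDg : D g3 = 3 * MvPolynomial.X i ^ 2 := by
    change MvPolynomial.pderiv i g3 = _
    unfold g3
    fin_cases i <;> simp [Derivation.leibniz_pow, MvPolynomial.pderiv_X]
  -- the map A
  let ι : (Fin k → S3) →ₗ[S3] (Fin k → RR) :=
    { toFun := fun v l => algebraMap S3 RR (v l)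
      map_add' := by intro x y; funext l; simp
      map_smul' := by
        intro s x; funext l
        simp [Algebra.smul_def] }
  obtain ⟨A, hA⟩ := trR (N := M) (N' := Fin k → RR) (ι ∘ₗ α)
  let B : (Fin k → RR) →ₗ[RR] M :=
    Fintype.linearCombination RR (fun l => c (β (Pi.single l 1)))
  have hB : ∀ v : Fin k → S3, B (ι v) = c (β v) := by
    intro v
    have h1 : v = ∑ l, v l • (Pi.single l (1 : S3) : Fin k → S3) :=
      ((Pi.basisFun S3 (Fin k)).sum_repr v).symm.trans (by simp)
    have h2 : B (ι v) = ∑ l, (algebraMap S3 RR (v l)) • c (β (Pi.single l 1)) := by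
      rw [Fintype.linearCombination_apply]
      rfl
    rw [h2]
    conv_rhs => rw [h1, map_sum, map_sum]
    refine Finset.sum_congr rfl fun l _ => ?_
    rw [algebraMap_smul, map_smul, map_smul]
  refine ⟨A, B, fun m => ?_⟩
  rw [hA, map_sum]
  have e1 : ∀ t ∈ Finset.range 4, B (wR ^ t • (ι ∘ₗ α) (wR ^ (3 - t) • m)) =
      p • ((phiN M ^ t * c * phiN M ^ (4 - 1 - t)) m) := by
    intro t _
    rw [map_smul, LinearMap.comp_apply, hB, h', map_smul]
    simp only [Module.End.mul_apply, phiN_pow]
    rw [smul_comm]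
  rw [Finset.sum_congr rfl e1, ← Finset.smul_sum, ← LinearMap.sum_apply, hc]
  rw [hDg]
  simp only [LinearMap.neg_apply, LinearMap.smul_apply, Module.End.one_apply]
  rw [← neg_smul, smul_smul]

end fac

end Pool.Agent.Y176.NC
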