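import Pool.Agent.Y176.NC.Loc
import Pool.Agent.TH215.TM.Defs
import Mathlib

set_option autoImplicit false

open CategoryTheory Polynomial

namespace Pool.Agent.Y176.NC

open Pool.Agent.W506.Hilb Pool.Agent.TH215.TM

/-- `ℂ[x_0, x_1, x_2] = ℂ[x_i][u, v]` -/
noncomputable def eI (i : Fin 3) : S3 ≃ₐ[ℂ] MvPolynomial (Fin 2) (Polynomial ℂ) :=
  (MvPolynomial.renameEquiv ℂ (finSuccEquiv' i)).trans (MvPolynomial.optionEquivRight ℂ (Fin 2))

lemma eI_X (i : Fin 3) : eI i (MvPolynomial.X i) = MvPolynomial.C Polynomial.X := by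
  simp [eI, MvPolynomial.renameEquiv_apply, MvPolynomial.rename_X, finSuccEquiv'_at]

lemma eI_aeval (i : Fin 3) (p : Polynomial ℂ) :
    eI i (Polynomial.aeval (MvPolynomial.X i : S3) p) = MvPolynomial.C p := by
  have h : ((eI i : S3 →ₐ[ℂ] MvPolynomial (Fin 2) (Polynomial ℂ)).comp
      (Polynomial.aeval (MvPolynomial.X i : S3))) =
      IsScalarTower.toAlgHom ℂ (Polynomial ℂ) (MvPolynomial (Fin 2) (Polynomial ℂ)) := by
    apply Polynomial.algHom_ext
    simp [eI_X, MvPolynomial.algebraMap_eq]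
  exact AlgHom.congr_fun h p

/-- The nonzero polynomials in `x_i`. -/
noncomputable def TI (i : Fin 3) : Submonoid S3 :=
  ((nonZeroDivisors (Polynomial ℂ)).map (MvPolynomial.C (σ := Fin 2))).map
    ((eI i).symm.toRingEquiv : MvPolynomial (Fin 2) (Polynomial ℂ) →* S3)

lemma mem_TI {i : Fin 3} {t : S3} (ht : t ∈ TI i) :
    ∃ p : Polynomial ℂ, p ≠ 0 ∧ t = Polynomial.aeval (MvPolynomial.X i : S3) p := by
  obtain ⟨_, ⟨p, hp, rfl⟩, rfl⟩ := ht
  refine ⟨p, nonZeroDivisors.ne_zero hp, ?_⟩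
  apply (eI i).injective
  rw [eI_aeval]
  exact (eI i).apply_symm_apply _

attribute [local instance] MvPolynomial.algebraMvPolynomial in
theorem gl_TI (i : Fin 3) (N : Type) [AddCommGroup N] [Module (Localization (TI i)) N] :
    PdLT (Localization (TI i)) N 3 := by
  let L := FractionRing (Polynomial ℂ)
  let S' := MvPolynomial (Fin 2) L
  let alg : Algebra S3 S' := ((algebraMap (MvPolynomial (Fin 2) (Polynomial ℂ)) S').comp
    ((eI i).symm.toRingEquiv.symm.toRingHom)).toAlgebra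
  have hloc : @IsLocalization _ _ (TI i) S' _ alg :=
    IsLocalization.isLocalization_of_base_ringEquiv
      ((nonZeroDivisors (Polynomial ℂ)).map (MvPolynomial.C (σ := Fin 2))) S'
      (eI i).symm.toRingEquiv
  let e : Localization (TI i) ≃ₐ[S3] S' := IsLocalization.algEquiv (TI i) _ _
  let _ : Module S' N := Module.compHom N e.symm.toRingEquiv.toRingHom
  have h : PdLT S' N 3 := hilbert_syzygy L 2 N
  exact pdLT_of_ringEquiv e.symm.toRingEquiv N N (AddEquiv.refl N) (fun r m => rfl) h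

/-- A finitely generated second syzygy over `ℂ[x, y, z]` is projective up to a nonzero
polynomial in `x_i`. -/
theorem exists_factor_S3 (i : Fin 3) (M : Type) [AddCommGroup M] [Module S3 M]
    [Module.Finite S3 M] (a b : ℕ)
    (j : M →ₗ[S3] (Fin a → S3)) (hj : Function.Injective j)
    (ρ : (Fin a → S3) →ₗ[S3] (Fin b → S3)) (hex : Function.Exact j ρ) :
    ∃ p : Polynomial ℂ, p ≠ 0 ∧ ∃ (k : ℕ) (α : M →ₗ[S3] (Fin k → S3))
      (β : (Fin k → S3) →ₗ[S3] M),
      β ∘ₗ α = (Polynomial.aeval (MvPolynomial.X i : S3) p) • (LinearMap.id : M →ₗ[S3] M) := by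
  obtain ⟨t, ht, k, α, β, h⟩ := exists_factor (TI i) (gl_TI i) (by
    intro t ht s hs
    obtain ⟨p, hp, rfl⟩ := mem_TI ht
    have h0 : Polynomial.aeval (MvPolynomial.X i : S3) p ≠ 0 := by
      intro h
      apply hp
      have := eI_aeval i p
      rw [h, map_zero] at this
      exact (MvPolynomial.C_injective _ _ (by rw [← this, map_zero]))
    exact (mul_eq_zero.1 hs).resolve_left h0) M a b j hj ρ hex
  obtain ⟨p, hp, rfl⟩ := mem_TI ht
  exact ⟨p, hp, k, α, β, h⟩

end Pool.Agent.Y176.NC
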