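import Pool.Agent.TH215.TM.Defs
import Mathlib

set_option autoImplicit false

open Polynomial

namespace Pool.Agent.Y176.NC

open Pool.Agent.TH215.TM

/-- `ℂ[x_0, x_1, x_2] = ℂ[u, v][x_i]` -/
noncomputable def eL (i : Fin 3) : S3 ≃ₐ[ℂ] Polynomial (MvPolynomial (Fin 2) ℂ) :=
  (MvPolynomial.renameEquiv ℂ (finSuccEquiv' i)).trans (MvPolynomial.optionEquivLeft ℂ (Fin 2))

lemma eL_X (i : Fin 3) : eL i (MvPolynomial.X i) = Polynomial.X := by
  simp [eL, MvPolynomial.renameEquiv_apply, MvPolynomial.rename_X, finSuccEquiv'_at]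

lemma eL_X_ne (i j : Fin 3) (h : j ≠ i) : ∃ j' : Fin 2,
    eL i (MvPolynomial.X j) = Polynomial.C (MvPolynomial.X j') := by
  obtain ⟨j', rfl⟩ := Fin.exists_succAbove_eq h
  refine ⟨j', ?_⟩
  simp [eL, MvPolynomial.renameEquiv_apply, MvPolynomial.rename_X]

lemma eL_aeval (i : Fin 3) (p : Polynomial ℂ) :
    eL i (Polynomial.aeval (MvPolynomial.X i : S3) p) =
      p.map (algebraMap ℂ (MvPolynomial (Fin 2) ℂ)) := by
  have h : ((eL i : S3 →ₐ[ℂ] Polynomial (MvPolynomial (Fin 2) ℂ)).comp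
      (Polynomial.aeval (MvPolynomial.X i : S3))) =
      Polynomial.mapAlgHom (Algebra.ofId ℂ (MvPolynomial (Fin 2) ℂ)) := by
    apply Polynomial.algHom_ext
    simp [eL_X]
  exact AlgHom.congr_fun h p

lemma eL_aeval_ne (i j : Fin 3) (h : j ≠ i) (p : Polynomial ℂ) :
    ∃ g : MvPolynomial (Fin 2) ℂ, eL i (Polynomial.aeval (MvPolynomial.X j : S3) p) = C g := by
  obtain ⟨j', hj⟩ := eL_X_ne i j h
  refine ⟨Polynomial.aeval (MvPolynomial.X j') p, ?_⟩
  have h : ((eL i : S3 →ₐ[ℂ] Polynomial (MvPolynomial (Fin 2) ℂ)).comp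
      (Polynomial.aeval (MvPolynomial.X j : S3))) =
      (IsScalarTower.toAlgHom ℂ (MvPolynomial (Fin 2) ℂ) (Polynomial (MvPolynomial (Fin 2) ℂ))).comp
      (Polynomial.aeval (MvPolynomial.X j')) := by
    apply Polynomial.algHom_ext
    simp [hj]
  exact AlgHom.congr_fun h p

/-- monic polynomials are regular modulo extended ideals -/
lemma mem_map_C_of_mul {B : Type} [CommRing B] (J : Ideal B) (q a : Polynomial B)
    (hq : IsUnit q.leadingCoeff) (h : q * a ∈ J.map (C : B →+* B[X])) :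
    a ∈ J.map (C : B →+* B[X]) := by
  have key : ∀ f : B[X], f ∈ J.map (C : B →+* B[X]) ↔ f.map (Ideal.Quotient.mk J) = 0 := by
    intro f
    rw [Ideal.mem_map_C_iff, Polynomial.ext_iff]
    simp only [coeff_map, coeff_zero, Ideal.Quotient.eq_zero_iff_mem]
  rw [key] at h ⊢
  obtain ⟨u, hu⟩ := hq
  have hm : (C (↑u⁻¹ : B) * q).Monic := by
    rcases subsingleton_or_nontrivial B with hB | hB
    · exact Subsingleton.elim _ _
    · rw [Monic, leadingCoeff_mul']
      · rw [leadingCoeff_C, ← hu]; simp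
      · rw [leadingCoeff_C, ← hu]; simp
  have h1 : (C (↑u⁻¹ : B) * q).map (Ideal.Quotient.mk J) * a.map (Ideal.Quotient.mk J) = 0 := by
    rw [← Polynomial.map_mul, mul_assoc, Polynomial.map_mul, h, mul_zero]
  exact ((hm.map _).isRegular.1.eq_iff).1 (by simpa using h1)

lemma mem_span_of_mul (i : Fin 3) (q : Polynomial ℂ) (hq : q ≠ 0) (s : Set S3)
    (hs : ∀ f ∈ s, ∃ g : MvPolynomial (Fin 2) ℂ, eL i f = C g) (a : S3)
    (h : Polynomial.aeval (MvPolynomial.X i : S3) q * a ∈ Ideal.span s) : a ∈ Ideal.span s := by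
  let J : Ideal (MvPolynomial (Fin 2) ℂ) := Ideal.span {g | C g ∈ eL i '' s}
  let E : S3 →+* Polynomial (MvPolynomial (Fin 2) ℂ) := (eL i).toRingEquiv.toRingHom
  have hE : ∀ x, E x = eL i x := fun x => rfl
  have hJ : (Ideal.span s).map E = J.map (C : _ →+* _) := by
    rw [Ideal.map_span, Ideal.map_span]
    congr 1
    ext f
    constructor
    · rintro ⟨f, hf, rfl⟩
      obtain ⟨g, hg⟩ := hs f hf
      exact ⟨g, ⟨f, hf, hg⟩, hg.symm⟩
    · rintro ⟨g, ⟨f, hf, hg⟩, rfl⟩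
      exact ⟨f, hf, hg⟩
  have h1 : eL i a ∈ (Ideal.span s).map E := by
    have h2 := Ideal.mem_map_of_mem E h
    rw [hJ] at h2 ⊢
    refine mem_map_C_of_mul J (q.map (algebraMap ℂ (MvPolynomial (Fin 2) ℂ))) _ ?_ ?_
    · rw [Polynomial.leadingCoeff_map_of_injective (algebraMap ℂ _).injective]
      exact (isUnit_iff_ne_zero.2 (leadingCoeff_ne_zero.2 hq)).map _
    · rw [← eL_aeval, ← map_mul]
      exact h2
  obtain ⟨b, hb, hb'⟩ := (Ideal.mem_map_iff_of_surjective E (eL i).surjective).1 h1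
  have : b = a := (eL i).injective hb'
  rwa [← this]

variable (q : Fin 3 → Polynomial ℂ) (hq : ∀ i, q i ≠ 0)

/-- the polynomial `q_i (x_i)` -/
noncomputable def sq (i : Fin 3) : S3 := Polynomial.aeval (MvPolynomial.X i : S3) (q i)

include hq

lemma sq_ne_zero (i : Fin 3) : sq q i ≠ 0 := by
  intro h
  have := eL_aeval i (q i)
  rw [sq] at h
  rw [h, map_zero] at this
  exact hq i ((Polynomial.map_eq_zero _).1 this.symm)

lemma sq_mem01 {a : S3} (h : ∃ r s : S3, sq q 2 * a = sq q 0 * r + sq q 1 * s) :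
    ∃ r s : S3, a = sq q 0 * r + sq q 1 * s := by
  obtain ⟨r, s, h⟩ := h
  have h1 := mem_span_of_mul 2 (q 2) (hq 2) {sq q 0, sq q 1} (by
    rintro f (rfl | rfl)
    · exact eL_aeval_ne 2 0 (by decide) _
    · exact eL_aeval_ne 2 1 (by decide) _) a (by
    rw [Ideal.mem_span_pair]
    exact ⟨r, s, by rw [mul_comm r, mul_comm s]; exact h.symm⟩)
  rw [Ideal.mem_span_pair] at h1
  obtain ⟨r, s, h⟩ := h1
  exact ⟨r, s, by rw [← h]; ring⟩

lemma sq_mem0 {a : S3} (h : ∃ r : S3, sq q 1 * a = sq q 0 * r) :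
    ∃ r : S3, a = sq q 0 * r := by
  obtain ⟨r, h⟩ := h
  have h1 := mem_span_of_mul 1 (q 1) (hq 1) {sq q 0} (by
    rintro f rfl
    exact eL_aeval_ne 1 0 (by decide) _) a (by
    rw [Ideal.mem_span_singleton]
    exact ⟨r, h⟩)
  rw [Ideal.mem_span_singleton] at h1
  exact h1

theorem flat_koszul3 {K : Type} [AddCommGroup K] [Module S3 K] [Module.Flat S3 K]
    (c01 c02 c12 : K) (h : sq q 2 • c01 - sq q 1 • c02 + sq q 0 • c12 = 0) :
    ∃ k0 k1 : K, c01 = sq q 1 • k0 - sq q 0 • k1 := by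
  have h1 : ∑ i, (![sq q 2, -sq q 1, sq q 0] : Fin 3 → S3) i • (![c01, c02, c12] : Fin 3 → K) i = 0 := by
    rw [Fin.sum_univ_three]
    simp only [Matrix.cons_val_zero, Matrix.cons_val_one, Matrix.cons_val]
    rw [neg_smul, ← sub_eq_add_neg]
    exact h
  obtain ⟨k, a, y, h2, h3⟩ := Module.Flat.isTrivialRelation_of_sum_smul_eq_zero h1
  have h4 : ∀ j, ∃ r s : S3, a 0 j = sq q 0 * r + sq q 1 * s := by
    intro j
    apply sq_mem01 q hq
    have h5 := h3 j
    rw [Fin.sum_univ_three] at h5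
    simp only [Matrix.cons_val_zero, Matrix.cons_val_one, Matrix.cons_val] at h5
    exact ⟨-a 2 j, a 1 j, by linear_combination h5⟩
  choose r s hrs using h4
  refine ⟨∑ j, s j • y j, -∑ j, r j • y j, ?_⟩
  have h6 := h2 0
  simp only [Matrix.cons_val_zero] at h6
  rw [h6, smul_neg, sub_neg_eq_add, Finset.smul_sum, Finset.smul_sum, ← Finset.sum_add_distrib]
  refine Finset.sum_congr rfl fun j _ => ?_
  rw [hrs j, smul_smul, smul_smul, ← add_smul, add_comm]

/-- division by `q_0 (x_0)` in second syzygies -/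
theorem syz_div (M : Type) [AddCommGroup M] [Module S3 M] (a b : ℕ)
    (j : M →ₗ[S3] (Fin a → S3)) (hj : Function.Injective j)
    (ρ : (Fin a → S3) →ₗ[S3] (Fin b → S3)) (hex : Function.Exact j ρ) (b0 b1 : M)
    (h : sq q 1 • b0 = sq q 0 • b1) : ∃ c : M, b0 = sq q 0 • c := by
  have h1 : ∀ l, ∃ r : S3, j b0 l = sq q 0 * r := by
    intro l
    apply sq_mem0 q hq
    refine ⟨j b1 l, ?_⟩
    have := congrArg (fun v => j v l) h
    simpa using this
  choose r hr using h1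
  have h2 : j b0 = sq q 0 • r := funext fun l => hr l
  have h3 : ρ r = 0 := by
    have h4 : sq q 0 • ρ r = 0 := by rw [← map_smul, ← h2]; exact (hex _).2 ⟨_, rfl⟩
    funext l
    have h5 := congrFun h4 l
    simp only [Pi.smul_apply, smul_eq_mul, Pi.zero_apply, mul_eq_zero] at h5
    exact h5.resolve_left (sq_ne_zero q hq 0)
  obtain ⟨c, hc⟩ := (hex r).1 h3
  refine ⟨c, hj ?_⟩
  rw [h2, map_smul, hc]

theorem syz_nzd (M : Type) [AddCommGroup M] [Module S3 M] (a : ℕ)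
    (j : M →ₗ[S3] (Fin a → S3)) (hj : Function.Injective j) (b0 : M)
    (h : sq q 0 • b0 = 0) : b0 = 0 := by
  apply hj
  rw [map_zero]
  funext l
  have := congrArg (fun v => j v l) h
  simp only [map_smul, Pi.smul_apply, smul_eq_mul, map_zero, Pi.zero_apply, mul_eq_zero] at this
  exact this.resolve_left (sq_ne_zero q hq 0)

end Pool.Agent.Y176.NC
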