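import Pool.Agent.W506.H2
import Mathlib

set_option autoImplicit false

open CategoryTheory

namespace Pool.Agent.Y176.NC

open Pool.Agent.W506.Hilb

/-- A finitely generated second syzygy over a noetherian ring whose localization at `T` has global
dimension at most two is projective up to a denominator in `T`. -/
theorem exists_factor {S : Type} [CommRing S] [IsNoetherianRing S] (T : Submonoid S)
    (hgl : ∀ (N : Type) [AddCommGroup N] [Module (Localization T) N], PdLT (Localization T) N 3)
    (hT : ∀ t ∈ T, ∀ s : S, t * s = 0 → s = 0)
    (M : Type) [AddCommGroup M] [Module S M] [Module.Finite S M] (a b : ℕ)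
    (i : M →ₗ[S] (Fin a → S)) (hi : Function.Injective i)
    (ρ : (Fin a → S) →ₗ[S] (Fin b → S)) (hex : Function.Exact i ρ) :
    ∃ t ∈ T, ∃ (k : ℕ) (α : M →ₗ[S] (Fin k → S)) (β : (Fin k → S) →ₗ[S] M),
      β ∘ₗ α = t • (LinearMap.id : M →ₗ[S] M) := by
  set S' := Localization T with hS'
  let i' := (LocalizedModule.map T i)
  let ρ' := (LocalizedModule.map T ρ)
  have hi' : Function.Injective i' := LocalizedModule.map_injective T i hi
  have hex' : Function.Exact i' ρ' := LocalizedModule.map_exact T i ρ hex
  have pa : Module.Projective S' (LocalizedModule T (Fin a → S)) :=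
    Module.projective_of_isLocalizedModule T (LocalizedModule.mkLinearMap T (Fin a → S))
  have pb : Module.Projective S' (LocalizedModule T (Fin b → S)) :=
    Module.projective_of_isLocalizedModule T (LocalizedModule.mkLinearMap T (Fin b → S))
  -- the image of ρ'
  have h1 : PdLT S' (LinearMap.range ρ') 2 :=
    pdLT_left (LinearMap.range ρ').subtype (LinearMap.range ρ').mkQ
      (Submodule.injective_subtype _) (Submodule.mkQ_surjective _)
      (LinearMap.exact_subtype_mkQ _) (pdLT_mono (by omega) (pdLT_one_of_projective pb)) (hgl _)
  have h2 : PdLT S' (LocalizedModule T M) 1 :=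
    pdLT_left i' ρ'.rangeRestrict hi' ρ'.surjective_rangeRestrict (by
      intro y
      rw [← hex' y]
      constructor
      · intro h; exact congrArg Subtype.val h
      · intro h; exact Subtype.ext h) (pdLT_one_of_projective pa) h1
  have h3 : Module.Projective S' (LocalizedModule T M) := projective_of_pdLT_one h2
  obtain ⟨k, π, hπ⟩ := Module.Finite.exists_fin' S M
  let π' := (LocalizedModule.map T π)
  have hπ' : Function.Surjective π' := LocalizedModule.map_surjective T π hπ
  obtain ⟨σ', hσ'⟩ := Module.projective_lifting_property π' LinearMap.id hπ'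
  have hfp : Module.FinitePresentation S M := Module.finitePresentation_of_finite S M
  obtain ⟨α, t, hα⟩ := Module.FinitePresentation.exists_lift_of_isLocalizedModule T
    (LocalizedModule.mkLinearMap T (Fin k → S))
    ((σ'.restrictScalars S) ∘ₗ LocalizedModule.mkLinearMap T M)
  refine ⟨t, t.2, k, α, π, ?_⟩
  have hinj : Function.Injective (LocalizedModule.mkLinearMap T M) := by
    rw [← LinearMap.ker_eq_bot, LinearMap.ker_eq_bot']
    intro m hm
    obtain ⟨c, hc⟩ := (IsLocalizedModule.eq_zero_iff T (LocalizedModule.mkLinearMap T M)).1 hm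
    apply hi
    rw [map_zero]
    funext j
    apply hT c c.2
    have := congrArg (fun v => i v j) hc
    simp only [map_zero, Pi.zero_apply] at this
    rw [← this]
    have e : i (c • m) = (c : S) • i m := by
      rw [← map_smul]; rfl
    rw [e]
    rfl
  ext m
  apply hinj
  have e1 : LocalizedModule.mkLinearMap T M (π (α m)) =
      π' (LocalizedModule.mkLinearMap T (Fin k → S) (α m)) := by
    simp [π', LocalizedModule.map_mk]
  have e2 : LocalizedModule.mkLinearMap T (Fin k → S) (α m) =
      (t : S) • σ' (LocalizedModule.mkLinearMap T M m) := by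
    have := LinearMap.congr_fun hα m
    exact this
  rw [LinearMap.comp_apply, e1, e2]
  have e3 : π' ((t : S) • σ' (LocalizedModule.mkLinearMap T M m)) =
      (t : S) • π' (σ' (LocalizedModule.mkLinearMap T M m)) :=
    (π'.restrictScalars S).map_smul (t : S) _
  rw [e3]
  have e4 := LinearMap.congr_fun hσ' (LocalizedModule.mkLinearMap T M m)
  simp only [LinearMap.comp_apply, LinearMap.id_apply] at e4
  rw [e4, ← map_smul]
  rfl

end Pool.Agent.Y176.NC
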