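import Pool.Agent.Y176.NC.Fac
import Mathlib

set_option autoImplicit false

open CategoryTheory

namespace Pool.Agent.Y176.NC

open Pool.Agent.TH215.TM Pool.Agent.W506.Hilb

section

variable (M : Type) [AddCommGroup M] [Module RR M] [Module S3 M] [IsScalarTower S3 RR M]

/-- the polynomial `-3 p^2 X^2` -/
noncomputable def q3 (p : Polynomial ℂ) : Polynomial ℂ :=
  p * (-(p * (Polynomial.C 3 * Polynomial.X ^ 2)))

lemma q3_ne (p : Polynomial ℂ) (hp : p ≠ 0) : q3 p ≠ 0 := by
  unfold q3
  refine mul_ne_zero hp (neg_ne_zero.2 (mul_ne_zero hp (mul_ne_zero ?_ ?_)))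
  · exact Polynomial.C_ne_zero.2 three_ne_zero
  · exact pow_ne_zero _ Polynomial.X_ne_zero

/-- multiplication by suitable nonzero polynomials `q_i (x_i)` factors through free
`R`-modules -/
theorem exists_q [Module.Finite RR M] (hr : Module.IsReflexive RR M) :
    ∃ q : Fin 3 → Polynomial ℂ, (∀ i, q i ≠ 0) ∧ ∀ i, ∃ (k : ℕ) (A : M →ₗ[RR] (Fin k → RR))
      (B : (Fin k → RR) →ₗ[RR] M), ∀ m, B (A m) = sq q i • m := by
  obtain ⟨a, b, j, ρ, hj, hex⟩ := exists_syz_S3 M hr
  have h1 := fun i : Fin 3 => exists_factor_S3 i M a b j hj ρ hex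
  choose p hp k α β h using h1
  refine ⟨fun i => q3 (p i), fun i => q3_ne _ (hp i), fun i => ?_⟩
  obtain ⟨A, B, hAB⟩ := exists_factor_R M i _ (k i) (α i) (β i) (h i)
  refine ⟨k i, A, B, fun m => ?_⟩
  rw [hAB]
  congr 1
  have h3 : (3 : S3) = MvPolynomial.C 3 := by rw [map_ofNat]
  simp [sq, q3, h3]

/-- the extension property: `Ext^1_R(M, M) = 0` for reflexive `M` with `End_R(M)` flat over
`S` -/
theorem extend [Module.Finite RR M] (hr : Module.IsReflexive RR M)
    (hK : Module.Flat S3 (Module.End RR M)) (n : ℕ) (π : (Fin n → RR) →ₗ[RR] M)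
    (hπ : Function.Surjective π) (h : LinearMap.ker π →ₗ[RR] M) :
    ∃ h' : (Fin n → RR) →ₗ[RR] M, ∀ x : LinearMap.ker π, h' x = h x := by
  obtain ⟨q, hq, hAB⟩ := exists_q M hr
  obtain ⟨a, b, j, ρ, hj, hex⟩ := exists_syz_S3 M hr
  -- extensions of `s_i • h`
  have h1 : ∀ i, ∃ g : (Fin n → RR) →ₗ[RR] M, ∀ x : LinearMap.ker π, g x = sq q i • h x := by
    intro i
    obtain ⟨k, A, B, hB⟩ := hAB i
    obtain ⟨B', hB'⟩ := Module.projective_lifting_property π B hπ
    let u0 : (Fin n → RR) →ₗ[RR] (Fin n → RR) :=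
      (algebraMap S3 RR (sq q i)) • LinearMap.id - B' ∘ₗ A ∘ₗ π
    have hu0 : ∀ x, u0 x ∈ LinearMap.ker π := by
      intro x
      rw [LinearMap.mem_ker]
      change π ((algebraMap S3 RR (sq q i)) • x - B' (A (π x))) = 0
      have e : π (B' (A (π x))) = B (A (π x)) := LinearMap.congr_fun hB' _
      rw [map_sub, map_smul, e, hB, algebraMap_smul, sub_self]
    let u : (Fin n → RR) →ₗ[RR] LinearMap.ker π := u0.codRestrict _ hu0
    refine ⟨h ∘ₗ u, fun x => ?_⟩
    have hx : u x = (algebraMap S3 RR (sq q i)) • x := by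
      apply Subtype.ext
      change (algebraMap S3 RR (sq q i)) • (x : Fin n → RR) - B' (A (π x)) = _
      have : π x = 0 := x.2
      rw [this, map_zero, map_zero, sub_zero]
      rfl
    rw [LinearMap.comp_apply, hx, map_smul, algebraMap_smul]
  choose g hg using h1
  -- the differences factor through `M`
  have h2 : ∀ f : (Fin n → RR) →ₗ[RR] M, (∀ x : LinearMap.ker π, f x = 0) →
      ∃ k : Module.End RR M, ∀ x, k (π x) = f x := by
    intro f hf
    refine ⟨((LinearMap.ker π).liftQ f (fun x hx => hf ⟨x, hx⟩)) ∘ₗ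
      (π.quotKerEquivOfSurjective hπ).symm.toLinearMap, fun x => ?_⟩
    have h5 : (π.quotKerEquivOfSurjective hπ).symm (π x) = (LinearMap.ker π).mkQ x := by
      rw [LinearEquiv.symm_apply_eq]
      rfl
    change ((LinearMap.ker π).liftQ f (fun x hx => hf ⟨x, hx⟩))
      ((π.quotKerEquivOfSurjective hπ).symm (π x)) = _
    rw [h5]
    exact (LinearMap.ker π).liftQ_apply f x
  have h3 : ∀ i l, ∃ k : Module.End RR M, ∀ x, k (π x) = sq q l • g i x - sq q i • g l x := by
    intro i l
    obtain ⟨k, hk⟩ := h2 ((algebraMap S3 RR (sq q l)) • g i - (algebraMap S3 RR (sq q i)) • g l) (by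
      intro x
      simp only [LinearMap.sub_apply, LinearMap.smul_apply, hg, algebraMap_smul]
      rw [smul_comm, sub_self])
    refine ⟨k, fun x => ?_⟩
    rw [hk]
    simp only [LinearMap.sub_apply, LinearMap.smul_apply, algebraMap_smul]
  choose c hc using h3
  have hrel : sq q 2 • c 0 1 - sq q 1 • c 0 2 + sq q 0 • c 1 2 = 0 := by
    ext m
    obtain ⟨x, rfl⟩ := hπ m
    simp only [LinearMap.add_apply, LinearMap.sub_apply, LinearMap.smul_apply, hc,
      LinearMap.zero_apply]
    module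
  obtain ⟨k0, k1, hk⟩ := flat_koszul3 q hq (c 0 1) (c 0 2) (c 1 2) hrel
  have h4 : ∀ x, ∃ y : M, g 0 x - k0 (π x) = sq q 0 • y := by
    intro x
    refine syz_div q hq M a b j hj ρ hex _ (g 1 x - k1 (π x)) ?_
    have e := hc 0 1 x
    rw [hk] at e
    simp only [LinearMap.sub_apply, LinearMap.smul_apply] at e
    rw [smul_sub, smul_sub]
    have e2 : sq q 1 • g 0 x = (sq q 1 • k0 (π x) - sq q 0 • k1 (π x)) + sq q 0 • g 1 x := by
      rw [e]; abel
    rw [e2]
    abel
  choose y hy using h4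
  have hinj : ∀ v w : M, sq q 0 • v = sq q 0 • w → v = w := by
    intro v w hvw
    rw [← sub_eq_zero]
    apply syz_nzd q hq M a j hj
    rw [smul_sub, hvw, sub_self]
  let h' : (Fin n → RR) →ₗ[RR] M :=
    { toFun := y
      map_add' := by
        intro v w
        apply hinj
        rw [smul_add, ← hy, ← hy, ← hy]
        simp only [map_add]
        abel
      map_smul' := by
        intro r v
        apply hinj
        simp only [RingHom.id_apply]
        rw [smul_comm (sq q 0) r (y v), ← hy, ← hy]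
        simp only [map_smul, smul_sub] }
  refine ⟨h', fun x => ?_⟩
  apply hinj
  change sq q 0 • y x = _
  rw [← hy, hg]
  have : π x = 0 := x.2
  rw [this, map_zero, sub_zero]

end

section omega

/-- relative injectivity of free `R`-modules -/
theorem rel_inj (N : Type) [AddCommGroup N] [Module RR N] [Module S3 N] [IsScalarTower S3 RR N]
    (a : N →ₗ[S3] RR) (ha : ∀ v, ∑ t ∈ Finset.range 4, wR ^ t • a (wR ^ (3 - t) • v) = 0) :
    ∃ b : N →ₗ[S3] RR, ∀ v, a v = wR • b v - b (wR • v) := by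
  have hm := Pool.Agent.TH159.TM.monicRR
  let pb := AdjoinRoot.powerBasis' hm
  have hd : pb.dim = 4 := by
    change (Polynomial.X ^ 4 + Polynomial.C g3 : Polynomial S3).natDegree = 4
    rw [Polynomial.natDegree_X_pow_add_C]
  -- coefficients
  obtain ⟨co, hco, hcw⟩ : ∃ co : Fin 4 → RR →ₗ[S3] S3,
      (∀ r, r = ∑ t : Fin 4, co t r • wR ^ (t : ℕ)) ∧
      ∀ s t : Fin 4, co t (wR ^ (s : ℕ)) = if (s : ℕ) = (t : ℕ) then 1 else 0 := by
    refine ⟨fun t => pb.basis.coord (Fin.cast hd.symm t), fun r => ?_, fun s t => ?_⟩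
    · conv_lhs => rw [← pb.basis.sum_repr r]
      rw [← (finCongr hd.symm).sum_comp]
      refine Finset.sum_congr rfl fun t _ => ?_
      rw [pb.basis_eq_pow]
      rfl
    · have h1 : wR ^ (s : ℕ) = pb.basis (Fin.cast hd.symm s) := by
        rw [pb.basis_eq_pow]
        rfl
      rw [h1, Module.Basis.coord_apply, Module.Basis.repr_self, Finsupp.single_apply]
      simp [Fin.ext_iff]
  have w4 : ∀ (k : ℕ) (r : RR), wR ^ (4 + k) * r = (-g3) • (wR ^ k * r) := by
    intro k r
    rw [pow_add, wR_pow_four, mul_assoc, Algebra.smul_def]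
  have c3 : ∀ v, co 0 (a v) + co 1 (a (wR • v)) + co 2 (a (wR ^ 2 • v)) +
      co 3 (a (wR ^ 3 • v)) = 0 := by
    intro v
    have h1 := congrArg (co 3) (ha v)
    rw [map_zero] at h1
    have h2 : ∀ (k : ℕ) (hk : k < 4) (r : RR), co 3 (wR ^ k • r) =
        co ⟨3 - k, by omega⟩ r := by
      intro k hk r
      conv_lhs => rw [hco r]
      rw [Finset.smul_sum, map_sum]
      have h3 : ∀ t : Fin 4, co 3 (wR ^ k • co t r • wR ^ (t : ℕ)) =
          co t r • co 3 (wR ^ (k + t)) := by
        intro t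
        rw [smul_comm, map_smul, smul_eq_mul (wR ^ k), ← pow_add]
      simp only [h3]
      have h5 : ∀ m : ℕ, m < 7 → co 3 (wR ^ m) = if m = 3 then 1 else 0 := by
        intro m hm
        rcases lt_or_ge m 4 with h | h
        · exact hcw ⟨m, h⟩ 3
        · obtain ⟨k, rfl⟩ := Nat.exists_eq_add_of_le h
          have e := w4 k 1
          rw [mul_one, mul_one] at e
          have h6 := hcw ⟨k, by omega⟩ 3
          rw [if_neg (by change ¬ (k = 3); omega)] at h6
          rw [e, map_smul]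
          have h8 : co 3 (wR ^ k) = 0 := h6
          rw [h8, smul_zero, if_neg (by omega)]
      have f0 : co 3 1 = 0 := by
        have := h5 0 (by omega)
        rwa [pow_zero, if_neg (by omega)] at this
      have f1 : co 3 wR = 0 := by
        have := h5 1 (by omega)
        rwa [pow_one, if_neg (by omega)] at this
      interval_cases k
      · simp [Fin.sum_univ_four, h5, f0, f1]
      · simp [Fin.sum_univ_four, h5, f1]
      · simp [Fin.sum_univ_four, h5]
      · simp [Fin.sum_univ_four, h5]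
    simp only [Finset.sum_range_succ, Finset.sum_range_zero, zero_add, map_add] at h1
    rw [h2 0 (by omega), h2 1 (by omega), h2 2 (by omega), h2 3 (by omega)] at h1
    rw [← h1]
    simp only [Nat.sub_zero, Nat.sub_self, pow_zero, one_smul, show 3 - 1 = 2 from rfl,
      show 3 - 2 = 1 from rfl, pow_one]
    have e3 : (⟨3, by omega⟩ : Fin 4) = 3 := rfl
    have e2 : (⟨2, by omega⟩ : Fin 4) = 2 := rfl
    have e1 : (⟨1, by omega⟩ : Fin 4) = 1 := rfl
    have e0 : (⟨0, by omega⟩ : Fin 4) = 0 := rfl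
    rw [e3, e2, e1, e0]
    abel
  let φ : Module.End S3 N := phiN N
  let m1 : RR →ₗ[S3] RR := LinearMap.mulLeft S3 wR
  let A : Fin 4 → N →ₗ[S3] S3 := fun t => co t ∘ₗ a
  let b0 : N →ₗ[S3] S3 := A 1 + A 2 ∘ₗ φ + A 3 ∘ₗ φ ∘ₗ φ
  let b1 : N →ₗ[S3] S3 := A 2 + A 3 ∘ₗ φ
  let b2 : N →ₗ[S3] S3 := A 3
  let b : N →ₗ[S3] RR := (LinearMap.toSpanSingleton S3 RR 1) ∘ₗ b0 +
    (LinearMap.toSpanSingleton S3 RR wR) ∘ₗ b1 + (LinearMap.toSpanSingleton S3 RR (wR ^ 2)) ∘ₗ b2
  refine ⟨b, fun v => ?_⟩
  have hb : ∀ v, b v = b0 v • (1 : RR) + b1 v • wR + b2 v • wR ^ 2 := fun v => rfl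
  have hb0 : ∀ v, b0 v = co 1 (a v) + co 2 (a (wR • v)) + co 3 (a (wR • wR • v)) := fun v => rfl
  have hb1 : ∀ v, b1 v = co 2 (a v) + co 3 (a (wR • v)) := fun v => rfl
  have hb2 : ∀ v, b2 v = co 3 (a v) := fun v => rfl
  have hc := c3 v
  have e2 : wR ^ 2 • v = wR • wR • v := by rw [pow_two, mul_smul]
  have e3 : wR ^ 3 • v = wR • wR • wR • v := by
    have h : wR ^ 3 = wR * (wR * wR) := by ring
    rw [h, mul_smul, mul_smul]
  rw [e2, e3] at hc
  rw [hb, hb, hb0, hb1, hb2, hb0, hb1, hb2]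
  have h0 : co 0 (a v) = -(co 1 (a (wR • v)) + co 2 (a (wR • wR • v)) +
      co 3 (a (wR • wR • wR • v))) := by
    linear_combination hc
  conv_lhs => rw [hco (a v), Fin.sum_univ_four, h0]
  simp only [Fin.val_zero, Fin.val_one, Fin.val_two, pow_zero, pow_one, smul_eq_mul,
    Algebra.smul_def, map_add, map_neg]
  have e5 : ((3 : Fin 4) : ℕ) = 3 := rfl
  rw [e5]
  ring

theorem rel_inj_fin (N : Type) [AddCommGroup N] [Module RR N] [Module S3 N]
    [IsScalarTower S3 RR N] (n : ℕ) (a : N →ₗ[S3] (Fin n → RR))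
    (ha : ∀ v, ∑ t ∈ Finset.range 4, wR ^ t • a (wR ^ (3 - t) • v) = 0) :
    ∃ b : N →ₗ[S3] (Fin n → RR), ∀ v, a v = wR • b v - b (wR • v) := by
  have h1 : ∀ l : Fin n, ∃ b : N →ₗ[S3] RR, ∀ v, a v l = wR • b v - b (wR • v) := by
    intro l
    refine rel_inj N (LinearMap.proj l ∘ₗ a) fun v => ?_
    have := congrFun (ha v) l
    rw [Finset.sum_apply] at this
    exact this
  choose b hb using h1
  exact ⟨LinearMap.pi b, fun v => funext fun l => hb l v⟩

variable (M : Type) [AddCommGroup M] [Module RR M] [Module S3 M] [IsScalarTower S3 RR M]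
  (N : Type) [AddCommGroup N] [Module RR N] [Module S3 N] [IsScalarTower S3 RR N]

omit [Module S3 N] [IsScalarTower S3 RR N] in
/-- the extension property for an abstract first syzygy -/
theorem extend' [Module.Finite RR M] (hr : Module.IsReflexive RR M)
    (hK : Module.Flat S3 (Module.End RR M)) (n : ℕ) (j : N →ₗ[RR] (Fin n → RR))
    (π : (Fin n → RR) →ₗ[RR] M) (hj : Function.Injective j)
    (hπ : Function.Surjective π) (hex : Function.Exact j π) (h : N →ₗ[RR] M) :
    ∃ h' : (Fin n → RR) →ₗ[RR] M, ∀ x, h' (j x) = h x := by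
  let e : N ≃ₗ[RR] LinearMap.range j := LinearEquiv.ofInjective j hj
  have hk : LinearMap.range j = LinearMap.ker π := (LinearMap.exact_iff.1 hex).symm
  let e' : N ≃ₗ[RR] LinearMap.ker π := e.trans (LinearEquiv.ofEq _ _ hk)
  have he' : ∀ x, ((e' x : LinearMap.ker π) : Fin n → RR) = j x := fun x => rfl
  obtain ⟨h', hh'⟩ := extend M hr hK n π hπ (h ∘ₗ e'.symm.toLinearMap)
  refine ⟨h', fun x => ?_⟩
  have h1 := hh' (e' x)
  rw [he'] at h1
  rw [h1]
  simp

/-- the first syzygy is rigid -/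
theorem rigid_ker [Module.Finite RR M] (hr : Module.IsReflexive RR M)
    (hK : Module.Flat S3 (Module.End RR M)) (n : ℕ) (j : N →ₗ[RR] (Fin n → RR))
    (π : (Fin n → RR) →ₗ[RR] M) (hj : Function.Injective j)
    (hπ : Function.Surjective π) (hex : Function.Exact j π) (a : Module.End S3 N)
    (ha : tr4 (phiN N) a = 0) :
    ∃ b : Module.End S3 N, a = phiN N * b - b * phiN N := by
  let jS : N →ₗ[S3] (Fin n → RR) := j.restrictScalars S3
  have hjS : ∀ v, jS v = j v := fun v => rfl
  obtain ⟨b0, hb0⟩ := rel_inj_fin N n (jS ∘ₗ a) (by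
    intro v
    have h1 := LinearMap.congr_fun ha v
    have h2 : (tr4 (phiN N) a) v = ∑ t ∈ Finset.range 4, wR ^ t • a (wR ^ (3 - t) • v) := by
      unfold tr4
      rw [LinearMap.sum_apply]
      refine Finset.sum_congr rfl fun t _ => ?_
      rw [Module.End.mul_apply, Module.End.mul_apply, phiN_pow, phiN_pow]
    rw [h2, LinearMap.zero_apply] at h1
    have h4 := congrArg j h1
    rw [map_sum, map_zero] at h4
    rw [← h4]
    refine Finset.sum_congr rfl fun t _ => ?_
    rw [LinearMap.comp_apply, hjS, map_smul j])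
  have hb0' : ∀ v, j (a v) = wR • b0 v - b0 (wR • v) := hb0
  have hπj : ∀ x, π (j x) = 0 := fun x => (hex _).2 ⟨x, rfl⟩
  -- `π b0` is `R`-linear
  obtain ⟨h, hh⟩ := linR ((π.restrictScalars S3) ∘ₗ b0) (by
    intro v
    have h1 := congrArg π (hb0' v)
    rw [map_sub, map_smul, hπj] at h1
    exact (sub_eq_zero.1 h1.symm).symm)
  have hh1 : ∀ v, h v = π (b0 v) := hh
  obtain ⟨h', hh'⟩ := extend' M N hr hK n j π hj hπ hex h
  obtain ⟨g, hg⟩ := Module.projective_lifting_property π h' hπ
  have hg' : ∀ x, π (g x) = h' x := fun x => LinearMap.congr_fun hg x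
  have hb1 : ∀ v, ∃ y : N, j y = b0 v - g (j v) := by
    intro v
    apply (hex _).1
    rw [map_sub, hg', hh', hh1, sub_self]
  choose b hb using hb1
  let b' : Module.End S3 N :=
    { toFun := b
      map_add' := by
        intro x y
        apply hj
        rw [map_add, hb, hb, hb, map_add, map_add, map_add]
        abel
      map_smul' := by
        intro r x
        apply hj
        have e1 : ∀ y : N, j (r • y) = r • j y := fun y => jS.map_smul r y
        have e2 : ∀ y : Fin n → RR, g (r • y) = r • g y := fun y =>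
          (g.restrictScalars S3).map_smul r y
        rw [RingHom.id_apply, e1, hb, hb, e1, e2, map_smul, smul_sub] }
  refine ⟨b', ?_⟩
  ext1 v
  apply hj
  change j (a v) = j (wR • b v - b (wR • v))
  rw [map_sub, map_smul j, hb, hb, hb0', map_smul j, map_smul g, smul_sub]
  abel

/-- the first syzygy is projective over `S` -/
theorem ker_projective [Module.Finite RR M] (hr : Module.IsReflexive RR M) (n : ℕ)
    (j : N →ₗ[RR] (Fin n → RR))
    (π : (Fin n → RR) →ₗ[RR] M) (hj : Function.Injective j)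
    (hπ : Function.Surjective π) (hex : Function.Exact j π) :
    Module.Projective S3 N := by
  obtain ⟨a, b, i, ρ, hi, hex'⟩ := exists_syz_S3 M hr
  have h1 : PdLT S3 (LinearMap.range ρ) 3 :=
    pdLT_left (LinearMap.range ρ).subtype (LinearMap.range ρ).mkQ
      (Submodule.injective_subtype _) (Submodule.mkQ_surjective _)
      (LinearMap.exact_subtype_mkQ _)
      (pdLT_mono (by omega) (pdLT_one_of_projective inferInstance)) (hilbert_syzygy ℂ 3 _)
  have h2 : PdLT S3 M 2 :=
    pdLT_left i ρ.rangeRestrict hi ρ.surjective_rangeRestrict (by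
      intro y
      rw [← hex' y]
      constructor
      · intro h; exact congrArg Subtype.val h
      · intro h; exact Subtype.ext h)
      (pdLT_mono (by omega) (pdLT_one_of_projective inferInstance)) h1
  have hF : Module.Projective S3 (Fin n → RR) := inferInstance
  have h3 : PdLT S3 N 1 :=
    pdLT_left (A := N) (B := Fin n → RR) (C := M) (j.restrictScalars S3) (π.restrictScalars S3)
      hj hπ hex (pdLT_one_of_projective hF) h2
  exact projective_of_pdLT_one h3

/-- the first syzygy is projective over `R` -/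
theorem ker_projective_RR [Module.Finite RR M] [Module.Finite RR N] (hr : Module.IsReflexive RR M)
    (hK : Module.Flat S3 (Module.End RR M)) (n : ℕ) (j : N →ₗ[RR] (Fin n → RR))
    (π : (Fin n → RR) →ₗ[RR] M) (hj : Function.Injective j)
    (hπ : Function.Surjective π) (hex : Function.Exact j π) : Module.Projective RR N := by
  have hp := ker_projective M N hr n j π hj hπ hex
  have hφ := phiN_pow_four N
  have hr' := rigid_ker M N hr hK n j π hj hπ hex
  obtain ⟨a, ha⟩ := Pool.Agent.TH350.J291.chain N (phiN N) hφ hr'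
    (Pool.Agent.TH350.J289.trace_X2 N (phiN N) hφ)
    (Pool.Agent.TH350.J290.exists_tau N (phiN N) hφ hr')
  exact higman 4 (by norm_num) g3 N (phiN N) (fun v => rfl) a ha

end omega

end Pool.Agent.Y176.NC
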