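import Pool.Agent.Y176.NC.Gl
import Pool.Agent.Y176.NC.Kos
import Pool.Agent.TH215.TM.AsmMM
import Mathlib

set_option autoImplicit false

open CategoryTheory

namespace Pool.Agent.Y176.NC

open Pool.Agent.TH215.TM Pool.Agent.W506.Hilb

/-- a finitely generated reflexive module is a second syzygy -/
theorem exists_syz (R : Type) [CommRing R] [IsNoetherianRing R] (M : Type) [AddCommGroup M]
    [Module R M] [Module.Finite R M] (hr : Module.IsReflexive R M) :
    ∃ (a b : ℕ) (i : M →ₗ[R] (Fin a → R)) (ρ : (Fin a → R) →ₗ[R] (Fin b → R)),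
      Function.Injective i ∧ Function.Exact i ρ := by
  have hfd : Module.Finite R (Module.Dual R M) := inferInstance
  obtain ⟨a, f, hf⟩ := Module.Finite.exists_fin' R (Module.Dual R M)
  have hfk : Module.Finite R (LinearMap.ker f) := inferInstance
  obtain ⟨b, g, hg⟩ := Module.Finite.exists_fin' R (LinearMap.ker f)
  have hf1 : ∀ (c : Fin a → R) (m : M), f c m = ∑ l, c l * f (Pi.single l 1) m := by
    intro c m
    have h1 : c = ∑ l, c l • (Pi.single l (1 : R) : Fin a → R) :=
      ((Pi.basisFun R (Fin a)).sum_repr c).symm.trans (by simp)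
    conv_lhs => rw [h1]
    simp [map_sum, LinearMap.sum_apply]
  let i : M →ₗ[R] (Fin a → R) :=
    { toFun := fun m l => f (Pi.single l 1) m
      map_add' := by intro x y; ext l; simp
      map_smul' := by intro r x; ext l; simp }
  let ρ : (Fin a → R) →ₗ[R] (Fin b → R) :=
    { toFun := fun v t => ∑ l, (g (Pi.single t 1) : Fin a → R) l * v l
      map_add' := by intro x y; ext l; simp [mul_add, Finset.sum_add_distrib]
      map_smul' := by
        intro r x; ext l
        simp only [Pi.smul_apply, smul_eq_mul, RingHom.id_apply, Finset.mul_sum]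
        exact Finset.sum_congr rfl fun _ _ => by ring }
  have hbij := hr.bijective_dual_eval'
  refine ⟨a, b, i, ρ, ?_, ?_⟩
  · rw [← LinearMap.ker_eq_bot, LinearMap.ker_eq_bot']
    intro m hm
    apply hbij.1
    rw [map_zero]
    ext μ
    obtain ⟨c, rfl⟩ := hf μ
    rw [Module.Dual.eval_apply, LinearMap.zero_apply, hf1]
    refine Finset.sum_eq_zero fun l _ => ?_
    have : f (Pi.single l 1) m = 0 := congrFun hm l
    rw [this, mul_zero]
  · intro v
    constructor
    · intro hv
      -- the functional
      let L0 : (Fin a → R) →ₗ[R] R :=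
        { toFun := fun c => ∑ l, c l * v l
          map_add' := by intro x y; simp [add_mul, Finset.sum_add_distrib]
          map_smul' := by
            intro r x
            simp only [Pi.smul_apply, smul_eq_mul, RingHom.id_apply, Finset.mul_sum]
            exact Finset.sum_congr rfl fun _ _ => by ring }
      have hL0 : ∀ c ∈ LinearMap.ker f, L0 c = 0 := by
        intro c hc
        obtain ⟨d, hd⟩ := hg ⟨c, hc⟩
        have h1 : d = ∑ t, d t • (Pi.single t (1 : R) : Fin b → R) :=
          ((Pi.basisFun R (Fin b)).sum_repr d).symm.trans (by simp)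
        have h2 : c = ∑ t, d t • (g (Pi.single t 1) : Fin a → R) := by
          have h3 := congrArg Subtype.val hd
          rw [h1] at h3
          simpa [map_sum] using h3.symm
        rw [h2, map_sum]
        refine Finset.sum_eq_zero fun t _ => ?_
        rw [map_smul]
        have h4 : L0 (g (Pi.single t 1) : Fin a → R) = 0 := congrFun hv t
        rw [h4, smul_zero]
      let L : Module.Dual R M →ₗ[R] R :=
        ((LinearMap.ker f).liftQ L0 hL0) ∘ₗ (f.quotKerEquivOfSurjective hf).symm.toLinearMap
      have hL : ∀ c, L (f c) = L0 c := by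
        intro c
        have h5 : (f.quotKerEquivOfSurjective hf).symm (f c) = (LinearMap.ker f).mkQ c := by
          rw [LinearEquiv.symm_apply_eq]
          rfl
        change ((LinearMap.ker f).liftQ L0 hL0) ((f.quotKerEquivOfSurjective hf).symm (f c)) = _
        rw [h5]
        exact (LinearMap.ker f).liftQ_apply L0 c
      obtain ⟨m, hm⟩ := hbij.2 L
      refine ⟨m, ?_⟩
      funext l
      have h6 := LinearMap.congr_fun hm (f (Pi.single l 1))
      rw [Module.Dual.eval_apply, hL] at h6
      change f (Pi.single l 1) m = v l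
      rw [h6]
      change ∑ l', (Pi.single l (1 : R) : Fin a → R) l' * v l' = v l
      simp [Pi.single_apply]
    · rintro ⟨m, rfl⟩
      funext t
      change ∑ l, (g (Pi.single t 1) : Fin a → R) l * f (Pi.single l 1) m = 0
      rw [← hf1]
      have : f (g (Pi.single t 1) : Fin a → R) = 0 := (g (Pi.single t 1)).2
      rw [this, LinearMap.zero_apply]

section rr

instance finite_S3 (M : Type) [AddCommGroup M] [Module RR M] [Module S3 M]
    [IsScalarTower S3 RR M] [Module.Finite RR M] : Module.Finite S3 M :=
  Module.Finite.trans RR M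

/-- a finitely generated reflexive `R`-module is a second syzygy over `S` -/
theorem exists_syz_S3 (M : Type) [AddCommGroup M] [Module RR M] [Module S3 M]
    [IsScalarTower S3 RR M] [Module.Finite RR M] (hr : Module.IsReflexive RR M) :
    ∃ (a b : ℕ) (i : M →ₗ[S3] (Fin a → S3)) (ρ : (Fin a → S3) →ₗ[S3] (Fin b → S3)),
      Function.Injective i ∧ Function.Exact i ρ := by
  obtain ⟨a, b, i, ρ, hi, hex⟩ := exists_syz RR M hr
  have hfr : ∀ n : ℕ, ∃ (n' : ℕ), Nonempty ((Fin n → RR) ≃ₗ[S3] (Fin n' → S3)) := fun n =>
    ⟨_, ⟨(Module.finBasis S3 (Fin n → RR)).equivFun⟩⟩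
  obtain ⟨a', ⟨ea⟩⟩ := hfr a
  obtain ⟨b', ⟨eb⟩⟩ := hfr b
  refine ⟨a', b', ea.toLinearMap ∘ₗ i.restrictScalars S3,
    eb.toLinearMap ∘ₗ ρ.restrictScalars S3 ∘ₗ ea.symm.toLinearMap, ?_, ?_⟩
  · exact ea.injective.comp hi
  · intro v
    constructor
    · intro h
      have h1 : ρ (ea.symm v) = 0 := by
        apply eb.injective
        rw [map_zero]
        exact h
      obtain ⟨m, hm⟩ := (hex _).1 h1
      refine ⟨m, ?_⟩
      change ea (i m) = v
      rw [hm, ea.apply_symm_apply]
    · rintro ⟨m, rfl⟩
      change eb (ρ (ea.symm (ea (i m)))) = 0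
      rw [ea.symm_apply_apply, (hex _).2 ⟨m, rfl⟩, map_zero]

/-- an `S`-linear map commuting with `w` is `R`-linear -/
theorem linR {N N' : Type} [AddCommGroup N] [Module RR N] [Module S3 N] [IsScalarTower S3 RR N]
    [AddCommGroup N'] [Module RR N'] [Module S3 N'] [IsScalarTower S3 RR N']
    (f : N →ₗ[S3] N') (hw : ∀ v, f (wR • v) = wR • f v) : ∃ g : N →ₗ[RR] N', ∀ v, g v = f v := by
  refine ⟨{ toFun := f, map_add' := f.map_add, map_smul' := ?_ }, fun v => rfl⟩
  intro r v
  simp only [RingHom.id_apply]
  induction r using AdjoinRoot.induction_on with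
  | ih p =>
    induction p using Polynomial.induction_on generalizing v with
    | C a =>
      have e : (AdjoinRoot.mk (Polynomial.X ^ 4 + Polynomial.C g3) (Polynomial.C a) : RR) =
        algebraMap S3 RR a := rfl
      rw [e, algebraMap_smul, algebraMap_smul, map_smul]
    | add p q hp hq =>
      rw [map_add, add_smul, add_smul, map_add, hp, hq]
    | monomial n a ih =>
      have e : (AdjoinRoot.mk (Polynomial.X ^ 4 + Polynomial.C g3)
          (Polynomial.C a * Polynomial.X ^ (n + 1)) : RR) =
          (AdjoinRoot.mk (Polynomial.X ^ 4 + Polynomial.C g3)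
          (Polynomial.C a * Polynomial.X ^ n) : RR) * wR := by
        rw [pow_succ (Polynomial.X : Polynomial S3) n, ← mul_assoc, map_mul]
        rfl
      rw [e, mul_smul, mul_smul, ih, hw]

end rr

end Pool.Agent.Y176.NC
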